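import Mathlib
import Pool.Agent.TH97.GB.Fin

/-!
# The group-theoretic approach to matrix multiplication in groups with a large solvable normal
# subgroup of bounded exponent

Cohn and Umans (2003), Cohn, Kleinberg, Szegedy and Umans (2005): if finite subsets `A i`, `B i`,
`C i` of a finite group `G` have the simultaneous triple product property, then
`∑ (|A i| |B i| |C i|) ^ (ω / 3) ≤ ∑ d_j ^ ω` for the exponent `ω` of matrix multiplication, where the
`d_j` are the character degrees of `G`.  All upper bounds for the number of operations of matrix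
multiplication obtained in this way come from groups for which the inequality fails when `ω` is
replaced by a larger number `τ`; then `ω < τ`, and matrices of size `m`, with `n = m²` entries, can be
multiplied by circuits of size `n ^ (τ / 2)`.

We show that the inequality holds for all `τ` in an interval `[2, 2 + ε]`, so that nothing below
`2 + ε` can be proved, for all groups `G` which have a solvable normal subgroup `Q` with
`|Q| ≥ |G| ^ c` such that `x ^ m = 1` on `Q` and all subgroups of prime power order of `Q` are
nilpotent of class at most `k`.  Here `ε` depends only on `m`, `k` and `c`.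

Proof.  Let `P` be a `p`-group of class at most `k` and exponent dividing `m`, normal in `H`.  Give
weight `(p+1)^i` to the elements of the `i`-th term of its lower exponent-`p`-central series; the
products of elements `x - 1` of total weight at least `a` span a filtration of `𝔽_p[P]`, invariant
under `H`, whose associated graded algebra is commutative with `v ^ p = 0`.  A third of the maximal
weight gives a subspace `W` of `𝔽_p[H]` with `W W W = 0` and codimension at most
`|H| |P| ^ (-c₁)`.  If `A i`, `B i`, `C i`, `i ∈ I`, have `s` elements each, then `W` gives spaces of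
block matrices with `tr (X Y Z) = 0`; the positions of leading terms form triangle-free sets, and so
`|I| s² ≤ 3 codim W`.  Powers of the group give
`∑ (|A i| |B i| |C i|) ^ (2/3) ≤ |H| |P| ^ (-c₁)` for all families, and cosets give the bound
`[G : H] ^ 2 |G| |P| ^ (-c₁)` in every group `G` containing `H`.  Finally, in the derived series of
`Q`, whose length is bounded by the theorem on the `p`-length of `p`-soluble groups and the derived
length of their Sylow subgroups (proved in `Pool.Agent.TH62.PL`), there is a factor `K / M` much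
larger than `M` and not too small; a Sylow subgroup `P` of the preimage of its `p`-part and its
normalizer `H` satisfy `[G : H] ≤ |M| ≤ |P| ^ (c₁ / 4)` by the Frattini argument.
-/

set_option autoImplicit false

namespace Pool.Agent.Results.MP_e72dc0_lc.GroupTheoreticBarrier

/-- The simultaneous triple product property of a family of triples of finite subsets `A i`, `B i`,
`C i` of a group (Cohn, Kleinberg, Szegedy, Umans 2005).  For one triple it is the triple product
property. -/
def STPP {G ι : Type} [Group G] (A B C : ι → Finset G) : Prop :=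
  ∀ i j k : ι, ∀ a' ∈ A i, ∀ a ∈ A j, ∀ b' ∈ B j, ∀ b ∈ B k, ∀ c' ∈ C k, ∀ c ∈ C i,
    a' * a⁻¹ * (b' * b⁻¹) * (c' * c⁻¹) = 1 → i = j ∧ j = k ∧ a' = a ∧ b' = b ∧ c' = c

/-- `G` has a solvable normal subgroup `Q` of order at least `|G| ^ c` such that `x ^ m = 1` for all
`x` in `Q`, and such that for all primes `p` the `p`-subgroups of `Q` are nilpotent of class at most
`k`. -/
def HasLargeSolvableNormal (m k : ℕ) (c : ℝ) (G : Type) [Group G] : Prop :=
  ∃ Q : Subgroup G, Q.Normal ∧ Group.IsSolvable Q ∧ (∀ x ∈ Q, x ^ m = 1) ∧
    (∀ p : ℕ, p.Prime → ∀ P : Subgroup G, P ≤ Q → IsPGroup p P → P.lowerCentralSeries k = ⊥) ∧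
    (Nat.card G : ℝ) ^ c ≤ Nat.card Q

/-- `d j`, `j ∈ κ`, are the character degrees of `G`: the complex group algebra is isomorphic to the
product of the algebras of `d j × d j` matrices. -/
def AreCharacterDegrees (G : Type) [Group G] {κ : Type} (d : κ → ℕ) : Prop :=
  Nonempty (MonoidAlgebra ℂ G ≃ₐ[ℂ] ((j : κ) → Matrix (Fin (d j)) (Fin (d j)) ℂ))

/-- For all `m ≥ 1`, `k`, `c > 0` there is `ε > 0` such that for every finite group `G` with a
solvable normal subgroup `Q`, `|Q| ≥ |G| ^ c`, of exponent dividing `m` with `p`-subgroups of class at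
most `k`, all families `A i`, `B i`, `C i` of subsets of `G` with the simultaneous triple product
property and all `τ ∈ [2, 2 + ε]` we have `∑ (|A i| |B i| |C i|) ^ (τ / 3) ≤ |G| ≤ ∑ d_j ^ τ` with the
character degrees `d_j` of `G`. -/
theorem result (m k : ℕ) (hm : 0 < m) (c : ℝ) (hc : 0 < c) : ∃ ε : ℝ, 0 < ε ∧
    ∀ (G : Type) [Group G] [Finite G], HasLargeSolvableNormal m k c G →
    ∀ (ι : Type) [Fintype ι] (A B C : ι → Finset G), STPP A B C →
    ∀ τ : ℝ, 2 ≤ τ → τ ≤ 2 + ε →
      ∑ i, (((A i).card * (B i).card * (C i).card : ℕ) : ℝ) ^ (τ / 3) ≤ Nat.card G ∧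
      ∀ (κ : Type) [Fintype κ] (d : κ → ℕ), AreCharacterDegrees G d →
        ∑ i, (((A i).card * (B i).card * (C i).card : ℕ) : ℝ) ^ (τ / 3) ≤ ∑ j, (d j : ℝ) ^ τ := by
  obtain ⟨e, he, he2, h⟩ := Pool.Agent.TH97.GB.main m k hm c hc
  refine ⟨2 * e, by positivity, fun G _ _ hG ι _ A B C hS τ h2 hτ => ?_⟩
  obtain ⟨Q, hn, hs, hm', hk, hQ⟩ := hG
  have h1 := Pool.Agent.TH97.GB.final G e he he2 (h G Q hn hs hm' hk hQ) ι A B C hS τ h2 hτ
  refine ⟨h1, fun κ _ d hd => h1.trans ?_⟩
  obtain ⟨φ⟩ := hd
  have h3 : Nat.card G = ∑ j, (d j) ^ 2 := by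
    have h4 := φ.toLinearEquiv.finrank_eq
    have h5 : Module.finrank ℂ (MonoidAlgebra ℂ G) = Nat.card G := by
      have := Fintype.ofFinite G
      rw [Module.finrank_eq_card_basis (MonoidAlgebra.basis G ℂ), Nat.card_eq_fintype_card]
    rw [h5, Module.finrank_pi_fintype] at h4
    rw [h4]
    refine Finset.sum_congr rfl fun j _ => ?_
    rw [Module.finrank_matrix]
    simp [sq]
  rw [h3]
  push_cast
  refine Finset.sum_le_sum fun j _ => ?_
  rcases Nat.eq_zero_or_pos (d j) with h0 | h0
  · rw [h0, Nat.cast_zero, Real.zero_rpow (by linarith)]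
    norm_num
  · rw [← Real.rpow_natCast]
    refine Real.rpow_le_rpow_of_exponent_le (by exact_mod_cast h0) ?_
    push_cast
    exact h2

end Pool.Agent.Results.MP_e72dc0_lc.GroupTheoreticBarrier
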