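import Pool.Agent.TH708.Fat.MM

/-!
# Arithmetic circuits for matrix multiplication need many heavy gates
-/

set_option autoImplicit false

namespace Pool.Agent.Results.MP_e72dc0_lc.HeavyGates

open Pool.Agent.H682R3.Few Pool.Agent.TH708.Fat

/-- Let `C` be an arithmetic circuit over a field (its gates compute arbitrary polynomials in the
values of any number of predecessors) for the product of two generic `n × n` matrices. Call a node
`θ`-heavy if the number of entries of the first matrix with a path to it times the number of
outputs with a path from it exceeds `θ`. If at most `n k / 2` nodes are `θ`-heavy, where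
`1 ≤ k ≤ n / 8`, then `n³ log₂ (n / (8 k)) ≤ 2 k θ (nodes + edges)`. -/
theorem result (F : Type) [Field F] (n : ℕ) (C : ACircuit F n) (hC : C.ComputesMM)
    (θ k : ℕ) (hk : 1 ≤ k) (hkn : 8 * k ≤ n) (hheavy : 2 * (heavyM C θ).card ≤ n * k) :
    (n : ℝ) ^ 3 * Real.logb 2 (n / (8 * k)) ≤
      2 * k * (θ * (Fintype.card C.V + C.G.E.card)) :=
  mm_heavy C hC θ k hk hkn hheavy

end Pool.Agent.Results.MP_e72dc0_lc.HeavyGates
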