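import Pool.Agent.TH2.MS.Fin

set_option autoImplicit false

/-!
# Matrix multiplication algorithms with symmetries of the rows only

`IsMM a b c` says that `∑ a t ⊗ b t ⊗ c t` is the tensor of the product of an `I × J` by a `J × L` matrix,
with one term for each `t : T`.  `RowInv a b c g` says that the terms are permuted by
`(A, B) ↦ (g A, B)`, and `MidInv a b c h` that they are permuted by `(A, B) ↦ (A h⁻¹, h B)`.
`rk K p q s` is the rank of the tensor `⟨p, q, s⟩`.  Write `q`, `s` for the numbers of elements of `J`
and `L`.

1. If `K ^ I = ⊕ K ^ (d x) ⊗ K ^ (m x)` and `K ^ J = ⊕ K ^ (e z) ⊗ K ^ (p z)` are the isotypic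
   decompositions for groups `G` and `H`, then a decomposition invariant under `G` (on the rows) and
   `H` (on the inner indices), separately, has at least `∑ x, ∑ z, d x * e z * rk ⟨m x, p z, s⟩` terms,
   and this is exact if `G` and `H` are block monomial.  So invariance costs as much as multiplying
   block by block.
2. If the commutant of `G` consists of scalars, at least `p q s` terms are needed.
3. For a single `g`, over any field, the number of terms is at least the sum of the ranks of
   `⟨m, q, s⟩` over the distinct eigenvalues of `g`, where `m` is the algebraic multiplicity; in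
   particular a symmetry `g` of the rows of a decomposition with `N` terms has at most `N / (q s)`
   distinct eigenvalues.
4. Let an arithmetic circuit (sums and products with any number of arguments) multiply `n × n`
   matrices and be symmetric under one permutation of the rows, or of the inner indices, or of the
   columns, with all cycles of length `r`, `r ≠ 0` in the field.  Then it has at least
   `r * rk ⟨n / r, n, n⟩` wires into product gates, in particular `n ^ 3` if `r = n`.  For symmetries
   of the rows and of the inner indices the bound is `r * r' * rk ⟨n / r, n / r', n⟩`.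

Proof of 1: fix a matrix `β` in the space of the second factors.  The terms with second factor
proportional to `β` are permuted by `G`, so the sum of the corresponding `a t ⊗ c t` is a matrix that
commutes with `G`, and therefore of the form `⊕ 1 ⊗ Y x`, with rank `∑ d x * rank (Y x)`; and for every
`x` the `Y x` are a decomposition of `⟨m x, q, s⟩`, which inherits the symmetry under `H`.
-/

namespace Pool.Agent.Results.MP_e72dc0_lc.OneSidedSymmetries

open Finset MvPolynomial Pool.Agent.TH2.MS Pool.Agent.H522R3.SW

theorem result :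
    -- 1. groups acting separately on the rows and on the inner indices
    (∀ (K I J L Λ Θ : Type) [Field K] [Fintype I] [DecidableEq I] [Fintype J] [DecidableEq J]
      [Fintype L] [DecidableEq L] [Fintype Λ] [DecidableEq Λ] [Fintype Θ] [DecidableEq Θ]
      (d m : Λ → ℕ) (e p : Θ → ℕ) (G : Set (GL I K)) (H : Set (GL J K)) (e1 : I ≃ Ix d m)
      (e2 : J ≃ Ix e p) (S1 : GL I K) (S2 : GL J K), Isotypic d m e1 S1 G →
      Isotypic e p e2 S2 H →
      (∀ (T : Type) [Fintype T] (a : T → Matrix I J K) (b : T → Matrix J L K)
        (c : T → Matrix L I K), IsMM a b c → (∀ g ∈ G, RowInv a b c g) →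
        (∀ h ∈ H, MidInv a b c h) →
        ∑ x, ∑ z, d x * e z * rk K (m x) (p z) (Fintype.card L) ≤ Fintype.card T) ∧
      ((∀ g ∈ G, Mono d m ((S1 * g * S1⁻¹).1.submatrix e1.symm e1.symm)) →
        (∀ h ∈ H, Mono e p ((S2 * h * S2⁻¹).1.submatrix e2.symm e2.symm)) →
        IsLeast {N : ℕ | ∃ (a : Fin N → Matrix I J K) (b : Fin N → Matrix J L K)
          (c : Fin N → Matrix L I K), IsMM a b c ∧ (∀ g ∈ G, RowInv a b c g) ∧
            ∀ h ∈ H, MidInv a b c h}
          (∑ x, ∑ z, d x * e z * rk K (m x) (p z) (Fintype.card L)))) ∧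
    -- 2. and 3. groups with scalar commutant, and single symmetries
    (∀ (K I J L T : Type) [Field K] [Fintype I] [DecidableEq I] [Fintype J] [DecidableEq J]
      [Fintype L] [DecidableEq L] [Fintype T] (a : T → Matrix I J K) (b : T → Matrix J L K)
      (c : T → Matrix L I K), IsMM a b c →
      (∀ G : Set (GL I K), (∀ X : Matrix I I K, (∀ g ∈ G, g.1 * X = X * g.1) →
          ∃ z : K, X = z • 1) → (∀ g ∈ G, RowInv a b c g) →
        Fintype.card I * (Fintype.card J * Fintype.card L) ≤ Fintype.card T) ∧
      (∀ g : GL I K, RowInv a b c g →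
        spec g.1 (fun m => rk (AlgebraicClosure K) m (Fintype.card J) (Fintype.card L)) ≤
          Fintype.card T ∧
        neig g.1 * (Fintype.card J * Fintype.card L) ≤ Fintype.card T)) ∧
    -- 4. circuits
    (∀ (M F G : Type) [Fintype M] [DecidableEq M] [Field F] [Fintype G] (C : Circ (Va M) F G)
      (val : G → MvPolynomial (Va M) F) (out : M → M → G), Computes C val out →
      (∀ f : Equiv.Perm M, Symm C out f id id ∨ Symm C out id f id ∨ Symm C out id id f →
        spec (pm F f) (fun m => rk (AlgebraicClosure F) m (Fintype.card M) (Fintype.card M)) ≤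
          mulWires C ∧
        (∀ (r : ℕ) (U : Type) [Fintype U] (e : ZMod r × U ≃ M), (r : F) ≠ 0 →
          (∀ x u, f (e (x, u)) = e (x + 1, u)) →
          r * rk (AlgebraicClosure F) (Fintype.card U) (Fintype.card M) (Fintype.card M) ≤
            mulWires C) ∧
        (∀ e : ZMod (Fintype.card M) ≃ M, (Fintype.card M : F) ≠ 0 →
          (∀ x, f (e x) = e (x + 1)) → Fintype.card M ^ 3 ≤ mulWires C)) ∧
      (∀ (f f' : Equiv.Perm M) (r r' : ℕ) (U U' : Type) [Fintype U] [Fintype U']
        (e : ZMod r × U ≃ M) (e' : ZMod r' × U' ≃ M), (r : F) ≠ 0 → (r' : F) ≠ 0 →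
        (∀ x u, f (e (x, u)) = e (x + 1, u)) → (∀ x u, f' (e' (x, u)) = e' (x + 1, u)) →
        Symm C out f id id → Symm C out id f' id →
        r * r' * rk (AlgebraicClosure F) (Fintype.card U) (Fintype.card U') (Fintype.card M) ≤
          mulWires C) ∧
      ∀ k, (∀ g, C.lab g = .mul → (C.args g).card ≤ k) → mulWires C ≤ mulGates C * k) := by
  refine ⟨?_, ?_, ?_⟩
  · intro K I J L Λ Θ _ _ _ _ _ _ _ _ _ _ _ d m e p G H e1 e2 S1 S2 hG hH
    refine ⟨?_, ?_⟩
    · intro T _ a b c h hGi hHi
      exact lower d m e p h G H e1 e2 S1 S2 hG hH hGi hHi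
    · intro hG' hH'
      exact exact_formula d m e p G H e1 e2 S1 S2 hG hH hG' hH'
  · intro K I J L T _ _ _ _ _ _ _ _ a b c h
    exact ⟨fun G hG hGi => row_irr h G hG hGi, fun g hg => ⟨row_one h hg, row_neig h hg⟩⟩
  · intro M F G _ _ _ _ C val out hC
    refine ⟨fun f hf => ⟨circ_one hC f hf, ?_, ?_⟩, ?_, ?_⟩
    · intro r U _ e hr he
      exact circ_cyc hC hr f e he hf
    · intro e hr he
      exact circ_full hC hr f e he hf
    · intro f f' r r' U U' _ _ e e' hr hr' he he' hf hf'
      exact circ_two_cyc hC hr hr' f f' e he e' he' hf hf'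
    · intro k hk
      exact wires_le C k hk

end Pool.Agent.Results.MP_e72dc0_lc.OneSidedSymmetries
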