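import Pool.Agent.TH711.MM.SymTri

set_option autoImplicit false

/-!
# Determinants and Pfaffians of symmetric and of skew-symmetric matrices

Definitions: `genP`, `genK` (the generic matrix of an affine space) are in
`Pool.Agent.H53R3.DetMain`, `xv`, `RF` (the field of rational functions and its variables) in
`Pool.Agent.H53R3.RatDer`, `SLPComputes`, `IsSLP`, `affS` in `Pool.Agent.H53R3.Slp`, `SymOrSkew` in
`Pool.Agent.TH711.MM.SymDet`, `ComputesFunctionOfDet` in `Pool.Agent.TH711.MM.DetBound`, `omega` in
`Pool.Agent.H515R2.MMR.Rank`.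

Proof. Let `z` be a nonconstant function, algebraic over `ℂ(det)`, on an affine space `A₀ + V` of
symmetric (skew-symmetric) matrices, computed with `L` multiplications and divisions. Then the cubic
form `tr(X ^ 3)` on a subspace `W` of codimension one of `M⁻¹ V`, for a generic member `M`, is a sum
of `L` products of three linear forms. The elements of `W` are selfadjoint for the symmetric
(alternating) bilinear form `M`. In a hyperbolic basis of `M` they are symmetric about the
antidiagonal. A one-parameter subgroup of the torus of the orthogonal (symplectic) group of `M`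
whose weights are as generic as possible degenerates `W` to a space `W₀` spanned by pairs of mirror
images of matrix units. A random choice of one index from each of the `n / 2` hyperbolic pairs
restricts `W₀` to a coordinate subspace of the `n/2 × n/2` matrices; if `4 dim W` exceeds
`n ^ 2 + (6 q + 18) n` then for some choice its dimension exceeds half of `(n / 2) ^ 2`, and the
bound for one space of matrices used three times (`sym_bound`, starting library) applies.
-/

namespace Pool.Agent.Results.MP_e72dc0_lc.SymmetricDeterminants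

open Module Filter Pool.Agent.H515R2.MMR Pool.Agent.H53R3 Pool.Agent.TH711

/-- Let `A₀ + span (b₁, …, b_m)` be an affine space of symmetric, or of skew-symmetric, complex
`n × n` matrices (the `bᵢ` linearly independent) whose generic member is invertible.

(1) If `4 m > n ^ 2 + (6 q + 18) n + 4` then the determinant of the generic member is not constant,
and if some nonconstant rational function `z` on the space which is algebraic over `ℂ(det)` (the
determinant, for example) is computed by a straight-line program with `L` multiplications and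
divisions then `q ^ ω ≤ 6 L`.
(2) The same bound holds for every square root `z` of the determinant, that is, for the Pfaffian.
(3) Hence, if for infinitely many `n` there is such a space of dimension at least
`(1/4 + ε) n ^ 2` (the space of all symmetric matrices has dimension `(1/2) n ^ 2 + n / 2`) on which
some nonconstant function of the determinant takes at most `C n ^ τ` multiplications and divisions,
then `ω ≤ τ`.
(4) For all `h ≥ 1` there are a space of symmetric and a space of skew-symmetric matrices with
`n = 2 h`, both of dimension `h ^ 2 = n ^ 2 / 4`, whose generic members are invertible and whose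
determinants take `h + 1` multiplications. -/
theorem result :
    (∀ (n m q : ℕ) (A₀ : Mt n) (b : Fin m → Mt n), 1 ≤ q → LinearIndependent ℂ b →
      SymOrSkew A₀ b → (genP A₀ b).det ≠ 0 → n ^ 2 + (6 * q + 18) * n + 4 < 4 * m →
      (∀ c : ℂ, (genK A₀ b).det ≠ algebraMap ℂ (RF m) c) ∧
      ∀ (L : ℕ) (z : RF m), IsAlgebraic (IntermediateField.adjoin ℂ {(genK A₀ b).det}) z →
        (∀ c : ℂ, z ≠ algebraMap ℂ (RF m) c) → SLPComputes (xv (m := m)) L {z} →
        (q : ℝ) ^ omega ≤ 6 * L) ∧
    (∀ (n m q : ℕ) (A₀ : Mt n) (b : Fin m → Mt n), 1 ≤ q → LinearIndependent ℂ b →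
      SymOrSkew A₀ b → (genP A₀ b).det ≠ 0 → n ^ 2 + (6 * q + 18) * n + 4 < 4 * m →
      ∀ (L : ℕ) (z : RF m), z ^ 2 = (genK A₀ b).det → SLPComputes (xv (m := m)) L {z} →
        (q : ℝ) ^ omega ≤ 6 * L) ∧
    (∀ ε τ C : ℝ, 0 < ε →
      (∀ N : ℕ, ∃ n : ℕ, N ≤ n ∧ ∃ (m : ℕ) (A₀ : Mt n) (b : Fin m → Mt n) (L : ℕ),
        LinearIndependent ℂ b ∧ SymOrSkew A₀ b ∧ (genP A₀ b).det ≠ 0 ∧
        (1 / 4 + ε) * (n : ℝ) ^ 2 ≤ m ∧
        ComputesFunctionOfDet A₀ b L ∧ (L : ℝ) ≤ C * (n : ℝ) ^ τ) → omega ≤ τ) ∧
    (∀ h : ℕ, 1 ≤ h →
      (∃ b : Fin (h * h) → Mt (h + h), LinearIndependent ℂ b ∧ (∀ i, (b i).transpose = b i) ∧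
        (genP 0 b).det ≠ 0 ∧ SLPComputes (xv (m := h * h)) (h + 1) {(genK 0 b).det}) ∧
      (∃ b : Fin (h * h) → Mt (h + h), LinearIndependent ℂ b ∧ (∀ i, (b i).transpose = -b i) ∧
        (genP 0 b).det ≠ 0 ∧ SLPComputes (xv (m := h * h)) (h + 1) {(genK 0 b).det})) :=
  ⟨fun _ _ _ A₀ b hq hb hsym hdet hdim =>
      ⟨symdet_nonconstant A₀ b hq hb hsym hdet hdim,
        fun _ z hz hzc hL => symdet_bound A₀ b hq hb hsym hdet hdim z hz hzc hL⟩,
    fun _ _ _ A₀ b hq hb hsym hdet hdim _ z hz hL =>
      pfaffian_bound A₀ b hq hb hsym hdet hdim z hz hL,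
    fun _ _ _ hε H => omega_le_of_symdet hε H,
    fun h hh => ⟨⟨bQ h 1, bQ_indep, fun i => by rw [bQ_transpose (by norm_num), one_smul],
        Q_det_ne (by norm_num), slp_Q (by norm_num) hh⟩,
      ⟨bQ h (-1), bQ_indep, fun i => by rw [bQ_transpose (by norm_num), neg_one_smul],
        Q_det_ne (by norm_num), slp_Q (by norm_num) hh⟩⟩⟩

end Pool.Agent.Results.MP_e72dc0_lc.SymmetricDeterminants
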